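import Pool.Agent.LSG.StmtsD
import Pool.Agent.Helper21_LSG.NP2
import Pool.Agent.Helper34_LSG.ZST

/-!
# Squad LSG, row AB2: abelian groups which are not precompact are l-stable
-/

set_option autoImplicit false

open MeasureTheory Set Topology
open scoped BigOperators Pointwise

namespace Pool.Agent.LSG.H30

open Pool.Agent.LSG

/-- coordinate 0 -/
theorem compl_zero (E : Type) [AddCommGroup E] [Module ℝ E] [TopologicalSpace E] :
    Compl E (ℕ → E) := by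
  refine ⟨ContinuousLinearMap.pi fun _ => ContinuousLinearMap.id ℝ E,
    ContinuousLinearMap.proj 0, fun x => rfl⟩

theorem compl_copies (h1 : AbcStmt) (H : Type) [Group H] [TopologicalSpace H]
    [IsTopologicalGroup H] [TopologicalSpace.MetrizableSpace H] (hc : ∀ a b : H, a * b = b * a)
    (hU : ∃ U ∈ nhds (1 : H), ∀ F : Finset H, (⋃ g ∈ F, g • U) ≠ Set.univ) :
    Compl (ℕ → ↥(Cp (Additive H))) ↥(Cp (Additive H)) := by
  classical
  obtain ⟨U, hU1, hU2⟩ := hU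
  let _ : CommGroup H := { (inferInstance : Group H) with mul_comm := hc }
  have : IsTopologicalAddGroup (Additive H) := inferInstance
  have : TopologicalSpace.MetrizableSpace (Additive H) :=
    inferInstanceAs (TopologicalSpace.MetrizableSpace H)
  refine h1 (Additive H) ⟨Additive.toMul ⁻¹' U, ?_, ?_⟩
  · exact hU1
  · intro F
    obtain ⟨h, hh⟩ := (Set.ne_univ_iff_exists_notMem _).1 (hU2 (F.image Additive.toMul))
    refine ⟨Additive.ofMul h, fun g hg hgU => hh ?_⟩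
    rw [Set.mem_iUnion₂]
    refine ⟨Additive.toMul g, Finset.mem_image_of_mem _ hg, ?_⟩
    rw [Set.mem_smul_set_iff_inv_smul_mem, smul_eq_mul]
    have h2 : (Additive.toMul (Additive.ofMul h - g)) = (Additive.toMul g)⁻¹ * h := by
      rw [toMul_sub, toMul_ofMul, div_eq_mul_inv, hc]
    have h3 : Additive.toMul (Additive.ofMul h - g) ∈ U := hgU
    rwa [h2] at h3

theorem ab2 (h1 : AbcStmt) (h2 : PelStmt) (h3 : CexStmt) (h4 : CpeStmt) (h5 : BriStmt) :
    Ab2Stmt := by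
  intro H _ _ _ _ hc hU
  have c1 := compl_copies h1 H hc hU
  have c2 : Compl ↥(Cp (Additive H)) (ℕ → ↥(Cp (Additive H))) := compl_zero _
  obtain ⟨e⟩ := (h2 (ℕ → ↥(Cp (Additive H))) ↥(Cp (Additive H))
    ⟨H34.curryE ↥(Cp (Additive H))⟩).1 c1 c2
  obtain ⟨e0⟩ := h4.1 (Additive H) H ⟨Homeomorph.refl H⟩
  have e2 : ↥(Cp H) ≃L[ℝ] (ℕ → ↥(Cp H)) :=
    (e0.symm.trans e).trans (ContinuousLinearEquiv.piCongrRight fun _ => e0)
  refine ⟨?_, ?_⟩
  · obtain ⟨e3⟩ := h4.1 (H × ℕ) (Σ _ : ℕ, H) ⟨H21.homN H⟩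
    obtain ⟨e4⟩ := h4.2.2.1 ℕ (fun _ => H)
    exact (h5.1 H (H × ℕ)).2 ⟨e2.trans (e3.trans e4).symm⟩
  · intro A hA
    have hA1 : LEmc A := (h5.2 _ A).mp hA
    have hA2 : Compl ↥(Cp A) ↥(Cp H) := h3.1 _ A hA1
    obtain ⟨e5⟩ := (h2 ↥(Cp H) ↥(Cp A) ⟨e2⟩).2 hA2
    obtain ⟨e6⟩ := h4.2.1 H A
    exact (h5.1 _ _).mpr ⟨e5.trans e6.symm⟩

end Pool.Agent.LSG.H30
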